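import Mathlib
import Pool.Agent.Helper12.Res.Defs

/-!
# Averaging over perfect matchings

A set of triples of a set with `3 s` elements which meets every perfect matching of the complete
3-graph has at least `C(3s-1, 2)` elements.
-/

namespace Helper28.Res

open Finset Res12

section TypeLevel

variable {α : Type} [Fintype α] [DecidableEq α]

/-- the block number `i` of an arrangement -/
def blk {s : ℕ} (σ : Fin s × Fin 3 ≃ α) (i : Fin s) : Finset α :=
  univ.image (fun j : Fin 3 => σ (i, j))

theorem card_blk {s : ℕ} (σ : Fin s × Fin 3 ≃ α) (i : Fin s) : (blk σ i).card = 3 := by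
  unfold blk
  rw [card_image_of_injective _ (fun a b h => by simpa using h)]
  simp

theorem blk_disjoint {s : ℕ} (σ : Fin s × Fin 3 ≃ α) {i i' : Fin s} (h : i ≠ i') :
    Disjoint (blk σ i) (blk σ i') := by
  rw [Finset.disjoint_left]
  intro a ha ha'
  obtain ⟨j, -, rfl⟩ := mem_image.1 ha
  obtain ⟨j', -, hj'⟩ := mem_image.1 ha'
  have := σ.injective hj'
  exact h (Prod.ext_iff.1 this).1.symm

theorem blk_trans {s : ℕ} (σ : Fin s × Fin 3 ≃ α) (τ : Equiv.Perm α) (i : Fin s) :
    blk (σ.trans τ) i = (blk σ i).map τ.toEmbedding := by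
  unfold blk
  rw [map_eq_image, image_image]
  rfl

/-- a permutation with `τ '' t = t'` -/
theorem exists_perm {t t' : Finset α} (h : t.card = t'.card) :
    ∃ τ : Equiv.Perm α, t.map τ.toEmbedding = t' := by
  classical
  have e : {x // x ∈ t} ≃ {x // x ∈ t'} := Fintype.equivOfCardEq (by simpa using h)
  refine ⟨e.extendSubtype, ?_⟩
  apply Finset.eq_of_subset_of_card_le
  · intro a ha
    obtain ⟨b, hb, rfl⟩ := mem_map.1 ha
    exact e.extendSubtype_mem b hb
  · rw [card_map, h]

/-- **Averaging.** -/
theorem avg_type {s : ℕ} (hs : 1 ≤ s) (hcard : Fintype.card α = 3 * s) (B : Finset (Finset α))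
    (hB : ∀ P : Finset (Finset α), (∀ e ∈ P, e.card = 3) → IsMatching P → P.card = s →
      ∃ e ∈ P, e ∈ B) : (3 * s - 1).choose 2 ≤ B.card := by
  classical
  -- WLOG all members of `B` have three elements
  let B' := B.filter (fun e => e.card = 3)
  have hB' : ∀ σ : Fin s × Fin 3 ≃ α, ∃ i : Fin s, blk σ i ∈ B' := by
    intro σ
    have hinj : Function.Injective (fun i : Fin s => blk σ i) := by
      intro i i' h
      by_contra hne
      have h1 := blk_disjoint σ hne
      have h2 : blk σ i = blk σ i' := h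
      rw [h2, disjoint_self_iff_empty] at h1
      have := card_blk σ i'
      rw [h1] at this
      simp at this
    obtain ⟨e, he, heB⟩ := hB (univ.image (fun i : Fin s => blk σ i)) (by
      intro e he
      obtain ⟨i, -, rfl⟩ := mem_image.1 he
      exact card_blk σ i) (by
      intro e he f hf hef
      obtain ⟨i, -, rfl⟩ := mem_image.1 he
      obtain ⟨i', -, rfl⟩ := mem_image.1 hf
      exact blk_disjoint σ (fun h => hef (by rw [h]))) (by
      rw [card_image_of_injective _ hinj]; simp)
    obtain ⟨i, -, rfl⟩ := mem_image.1 he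
    exact ⟨i, mem_filter.2 ⟨heB, card_blk σ i⟩⟩
  -- the number of arrangements with a given block
  let c : Fin s → Finset α → ℕ := fun i t =>
    (univ.filter (fun σ : Fin s × Fin 3 ≃ α => blk σ i = t)).card
  have hc : ∀ i t t', t.card = t'.card → c i t = c i t' := by
    intro i t t' h
    obtain ⟨τ, hτ⟩ := exists_perm h
    refine Finset.card_bij (fun σ _ => σ.trans τ) ?_ ?_ ?_
    · intro σ hσ
      rw [mem_filter] at hσ ⊢
      exact ⟨mem_univ _, by rw [blk_trans, hσ.2, hτ]⟩
    · intro σ _ σ' _ h
      ext x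
      have := congrArg (fun f : Fin s × Fin 3 ≃ α => f x) h
      simpa using this
    · intro σ hσ
      rw [mem_filter] at hσ
      refine ⟨σ.trans τ.symm, ?_, ?_⟩
      · rw [mem_filter]
        refine ⟨mem_univ _, ?_⟩
        rw [blk_trans, hσ.2, ← hτ, map_map]
        ext a
        simp
      · ext x
        simp
  obtain ⟨t0, ht0⟩ : ∃ t0 : Finset α, t0.card = 3 := by
    have : 3 ≤ (univ : Finset α).card := by rw [card_univ, hcard]; omega
    obtain ⟨t0, -, h⟩ := Finset.exists_subset_card_eq this
    exact ⟨t0, h⟩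
  have htot : ∀ i, (univ : Finset (Fin s × Fin 3 ≃ α)).card =
      ((3 * s).choose 3) * c i t0 := by
    intro i
    have h1 : (univ : Finset (Fin s × Fin 3 ≃ α)).card =
        ∑ t ∈ (univ : Finset α).powersetCard 3, c i t := by
      refine Finset.card_eq_sum_card_fiberwise ?_
      intro σ _
      exact mem_powersetCard.2 ⟨subset_univ _, card_blk σ i⟩
    rw [h1, Finset.sum_congr rfl (fun t ht => hc i t t0
      (((mem_powersetCard.1 ht).2).trans ht0.symm)), sum_const, card_powersetCard, card_univ,
      hcard, smul_eq_mul]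
  have hle : (univ : Finset (Fin s × Fin 3 ≃ α)).card ≤ ∑ i : Fin s, B'.card * c i t0 := by
    have h1 : (univ : Finset (Fin s × Fin 3 ≃ α)) ⊆
        (univ : Finset (Fin s)).biUnion (fun i => B'.biUnion (fun t =>
          univ.filter (fun σ : Fin s × Fin 3 ≃ α => blk σ i = t))) := by
      intro σ _
      obtain ⟨i, hi⟩ := hB' σ
      exact mem_biUnion.2 ⟨i, mem_univ _, mem_biUnion.2 ⟨_, hi, mem_filter.2 ⟨mem_univ _, rfl⟩⟩⟩
    refine (card_le_card h1).trans (card_biUnion_le.trans (Finset.sum_le_sum fun i _ => ?_))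
    refine card_biUnion_le.trans ?_
    rw [Finset.sum_congr rfl (fun t ht => hc i t t0
      (((mem_filter.1 ht).2).trans ht0.symm)), sum_const, smul_eq_mul]
  have hpos : 0 < (univ : Finset (Fin s × Fin 3 ≃ α)).card := by
    rw [card_pos]
    have : Nonempty (Fin s × Fin 3 ≃ α) :=
      ⟨Fintype.equivOfCardEq (by simp [hcard, mul_comm])⟩
    exact univ_nonempty
  -- multiply and cancel
  have i0 : Fin s := ⟨0, hs⟩
  have hcc : ∀ i, c i t0 = c i0 t0 := by
    intro i
    have e1 := htot i
    have e2 := htot i0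
    rw [e1] at e2
    have hch : 0 < (3 * s).choose 3 := Nat.choose_pos (by omega)
    exact Nat.eq_of_mul_eq_mul_left hch e2
  have hsum : ∑ i : Fin s, B'.card * c i t0 = s * (B'.card * c i0 t0) := by
    rw [Finset.sum_congr rfl (fun i _ => by rw [hcc i] : ∀ i ∈ (univ : Finset (Fin s)),
      B'.card * c i t0 = B'.card * c i0 t0), sum_const, smul_eq_mul]
    congr 1
    simp
  rw [hsum, htot i0] at hle
  have hc0 : 0 < c i0 t0 := by
    rw [htot i0] at hpos
    exact Nat.pos_of_mul_pos_left hpos
  have h2 : (3 * s).choose 3 ≤ s * B'.card := by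
    have : (3 * s).choose 3 * c i0 t0 ≤ (s * B'.card) * c i0 t0 := by
      calc _ ≤ s * (B'.card * c i0 t0) := hle
        _ = _ := by ring
    exact Nat.le_of_mul_le_mul_right this hc0
  have h3 : (3 * s).choose 3 = s * (3 * s - 1).choose 2 := by
    have := Nat.add_one_mul_choose_eq (3 * s - 1) 2
    rw [Nat.sub_add_cancel (by omega)] at this
    have h4 : 3 * (s * (3 * s - 1).choose 2) = 3 * (3 * s).choose 3 := by
      calc 3 * (s * (3 * s - 1).choose 2) = 3 * s * (3 * s - 1).choose 2 := by ring
        _ = (3 * s).choose (2 + 1) * (2 + 1) := this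
        _ = 3 * (3 * s).choose 3 := by ring
    omega
  rw [h3] at h2
  exact (Nat.le_of_mul_le_mul_left h2 (by omega)).trans (card_le_card (filter_subset _ _))

end TypeLevel

variable {V : Type} [Fintype V] [DecidableEq V]

/-- **Averaging in a set.** `B` meets every perfect matching of the triples of `Z`, `|Z| = 3 s`. -/
theorem avg {s : ℕ} (hs : 1 ≤ s) {Z : Finset V} (hcard : Z.card = 3 * s)
    (B : Finset (Finset V))
    (hB : ∀ P : Finset (Finset V), (∀ e ∈ P, e ⊆ Z ∧ e.card = 3) → IsMatching P → P.card = s →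
      ∃ e ∈ P, e ∈ B) : (3 * s - 1).choose 2 ≤ (B.filter (fun e => e ⊆ Z)).card := by
  classical
  let ι : {x // x ∈ Z} ↪ V := Function.Embedding.subtype _
  let B0 : Finset (Finset {x // x ∈ Z}) := univ.filter (fun e => e.map ι ∈ B)
  have h1 := avg_type hs (α := {x // x ∈ Z}) (by simpa using hcard) B0 (by
    intro P hP3 hPm hPc
    obtain ⟨e, he, heB⟩ := hB (P.image (fun e => e.map ι)) (by
      intro e he
      obtain ⟨f, hf, rfl⟩ := mem_image.1 he
      refine ⟨?_, by rw [card_map]; exact hP3 f hf⟩
      intro a ha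
      obtain ⟨b, -, rfl⟩ := mem_map.1 ha
      exact b.2) (by
      intro e he f hf hef
      obtain ⟨e', he', rfl⟩ := mem_image.1 he
      obtain ⟨f', hf', rfl⟩ := mem_image.1 hf
      rw [disjoint_map]
      exact hPm e' he' f' hf' (fun h => hef (by rw [h]))) (by
      rw [card_image_of_injective _ (Finset.map_injective ι)]
      exact hPc)
    obtain ⟨f, hf, rfl⟩ := mem_image.1 he
    exact ⟨f, hf, mem_filter.2 ⟨mem_univ _, heB⟩⟩)
  refine h1.trans ?_
  rw [← card_image_of_injective B0 (Finset.map_injective ι)]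
  apply card_le_card
  intro e he
  obtain ⟨f, hf, rfl⟩ := mem_image.1 he
  refine mem_filter.2 ⟨(mem_filter.1 hf).2, ?_⟩
  intro a ha
  obtain ⟨b, -, rfl⟩ := mem_map.1 ha
  exact b.2

end Helper28.Res
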