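import Mathlib
import Pool.Agent.Helper12.Res.Defs
import Pool.Agent.Helper28.Res.Avg

/-!
# The excess criterion

`F` is a 3-graph without `s + 1` disjoint edges and `A` a set of `3 s` vertices which meets every
edge.  `dg F A p` is the number of edges with trace `p` on `A`, `E1` the sum of `(dg p - 2)^+` over
the pairs of `A`, `E2` the sum of `(dg x - 1)^+` over the points of `A`.  If `E1 + E2 ≤ C(3s-1, 2)`
then `|F| ≤ C(3s+2, 3)`.
-/

namespace Helper28.Res

open Finset Res12

variable {V : Type} [Fintype V] [DecidableEq V]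

/-- the number of edges with trace `p` on `A` -/
def dg (F : Finset (Finset V)) (A p : Finset V) : ℕ := (F.filter (fun e => e ∩ A = p)).card

/-- the excess over the pairs -/
def E1 (F : Finset (Finset V)) (A : Finset V) : ℕ := ∑ p ∈ A.powersetCard 2, (dg F A p - 2)

/-- the excess over the points -/
def E2 (F : Finset (Finset V)) (A : Finset V) : ℕ := ∑ p ∈ A.powersetCard 1, (dg F A p - 1)

/-- the number of missing triples of the compressed family -/
def bet (F : Finset (Finset V)) (A : Finset V) : ℕ :=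
  ∑ q ∈ A.powersetCard 3, (1 - dg F A q) + (∑ p ∈ A.powersetCard 2, (2 - dg F A p) +
    ∑ p ∈ A.powersetCard 1, (1 - dg F A p))

theorem fiber (F : Finset (Finset V)) (A : Finset V) (i : ℕ) :
    (F.filter (fun e => (e ∩ A).card = i)).card = ∑ p ∈ A.powersetCard i, dg F A p := by
  rw [Finset.card_eq_sum_card_fiberwise (f := fun e => e ∩ A) (t := A.powersetCard i)]
  · apply Finset.sum_congr rfl
    intro p hp
    unfold dg
    congr 1
    ext e
    simp only [mem_filter, and_assoc]
    constructor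
    · rintro ⟨h1, -, h2⟩
      exact ⟨h1, h2⟩
    · rintro ⟨h1, h2⟩
      exact ⟨h1, by rw [h2]; exact (mem_powersetCard.1 hp).2, h2⟩
  · intro e he
    have he' : e ∈ F.filter (fun e => (e ∩ A).card = i) := he
    exact mem_powersetCard.2 ⟨inter_subset_right, (mem_filter.1 he').2⟩

theorem dg_three {F : Finset (Finset V)} (h3 : ∀ e ∈ F, e.card = 3) {A q : Finset V}
    (hq : q.card = 3) : dg F A q ≤ 1 := by
  unfold dg
  rw [card_le_one]
  have key : ∀ e ∈ F.filter (fun e => e ∩ A = q), e = q := by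
    intro e he
    obtain ⟨h1, h2⟩ := mem_filter.1 he
    refine (Finset.eq_of_subset_of_card_le ?_ ?_).symm
    · rw [← h2]; exact inter_subset_left
    · rw [h3 e h1, hq]
  intro a ha b hb
  rw [key a ha, key b hb]

theorem choose_id (a : ℕ) : a.choose 3 + 2 * a.choose 2 + a = (a + 2).choose 3 := by
  have h1 : (a + 2).choose 3 = (a + 1).choose 2 + (a + 1).choose 3 :=
    Nat.choose_succ_succ' (a + 1) 2
  have h2 : (a + 1).choose 3 = a.choose 2 + a.choose 3 := Nat.choose_succ_succ' a 2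
  have h3 : (a + 1).choose 2 = a.choose 1 + a.choose 2 := Nat.choose_succ_succ' a 1
  rw [Nat.choose_one_right] at h3
  omega

/-- **The counting identity.** -/
theorem card_add_bet {F : Finset (Finset V)} (h3 : ∀ e ∈ F, e.card = 3) {A : Finset V}
    (hcov : ∀ e ∈ F, (e ∩ A).Nonempty) :
    F.card + bet F A = (A.card + 2).choose 3 + E1 F A + E2 F A := by
  have hsplit : F.card = (F.filter (fun e => (e ∩ A).card = 3)).card +
      ((F.filter (fun e => (e ∩ A).card = 2)).card +
        (F.filter (fun e => (e ∩ A).card = 1)).card) := by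
    have h1 := Finset.card_filter_add_card_filter_not (s := F) (fun e => (e ∩ A).card = 3)
    have h2 := Finset.card_filter_add_card_filter_not
      (s := F.filter (fun e => ¬ (e ∩ A).card = 3)) (fun e => (e ∩ A).card = 2)
    rw [filter_filter, filter_filter] at h2
    have e1 : F.filter (fun e => ¬ (e ∩ A).card = 3 ∧ (e ∩ A).card = 2) =
        F.filter (fun e => (e ∩ A).card = 2) := by
      apply filter_congr
      intro e _
      constructor
      · rintro ⟨-, h⟩; exact h
      · intro h; exact ⟨by omega, h⟩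
    have e2 : F.filter (fun e => ¬ (e ∩ A).card = 3 ∧ ¬ (e ∩ A).card = 2) =
        F.filter (fun e => (e ∩ A).card = 1) := by
      apply filter_congr
      intro e he
      have h4 : 1 ≤ (e ∩ A).card := card_pos.2 (hcov e he)
      have h5 : (e ∩ A).card ≤ 3 := (card_le_card inter_subset_left).trans (h3 e he).le
      constructor
      · rintro ⟨h6, h7⟩; omega
      · intro h; omega
    rw [e1, e2] at h2
    omega
  rw [fiber, fiber, fiber] at hsplit
  have s3 : ∑ q ∈ A.powersetCard 3, dg F A q + ∑ q ∈ A.powersetCard 3, (1 - dg F A q) =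
      A.card.choose 3 := by
    rw [← sum_add_distrib, ← card_powersetCard, card_eq_sum_ones]
    apply sum_congr rfl
    intro q hq
    have := dg_three h3 (A := A) (mem_powersetCard.1 hq).2
    omega
  have s2 : ∑ q ∈ A.powersetCard 2, dg F A q + ∑ q ∈ A.powersetCard 2, (2 - dg F A q) =
      2 * A.card.choose 2 + ∑ q ∈ A.powersetCard 2, (dg F A q - 2) := by
    rw [← sum_add_distrib, ← card_powersetCard, card_eq_sum_ones, mul_sum, ← sum_add_distrib]
    apply sum_congr rfl
    intro q hq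
    omega
  have s1 : ∑ q ∈ A.powersetCard 1, dg F A q + ∑ q ∈ A.powersetCard 1, (1 - dg F A q) =
      A.card + ∑ q ∈ A.powersetCard 1, (dg F A q - 1) := by
    have h5 : A.card = (A.powersetCard 1).card := by
      rw [card_powersetCard, Nat.choose_one_right]
    rw [h5, card_eq_sum_ones, ← sum_add_distrib, ← sum_add_distrib]
    apply sum_congr rfl
    intro q hq
    omega
  have h6 := choose_id A.card
  unfold bet E1 E2
  omega

theorem exists_of_dg {F : Finset (Finset V)} {A p : Finset V} (h : dg F A p ≠ 0) :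
    ∃ f ∈ F, f ∩ A = p := by
  unfold dg at h
  rw [card_ne_zero] at h
  obtain ⟨f, hf⟩ := h
  exact ⟨f, (mem_filter.1 hf).1, (mem_filter.1 hf).2⟩

theorem dg_pos {F : Finset (Finset V)} {A p f : Finset V} (hf : f ∈ F) (h : f ∩ A = p) :
    dg F A p ≠ 0 := by
  unfold dg
  rw [card_ne_zero]
  exact ⟨f, mem_filter.2 ⟨hf, h⟩⟩

/-- a pair with many outside neighbours has one outside a small set -/
theorem pick {F : Finset (Finset V)} (h3 : ∀ e ∈ F, e.card = 3) {A p : Finset V}
    (hp : p.card = 2) {U : Finset V} (hU : U.card < dg F A p) :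
    ∃ f ∈ F, f ∩ A = p ∧ Disjoint (f \ A) U := by
  by_contra hcon
  push Not at hcon
  have hsub : F.filter (fun e => e ∩ A = p) ⊆ U.image (fun u => insert u p) := by
    intro f hf
    obtain ⟨hfF, hfp⟩ := mem_filter.1 hf
    obtain ⟨u, hu1, hu2⟩ := Finset.not_disjoint_iff.1 (hcon f hfF hfp)
    rw [mem_sdiff] at hu1
    refine mem_image.2 ⟨u, hu2, ?_⟩
    have hup : u ∉ p := by
      intro h
      rw [← hfp] at h
      exact hu1.2 (mem_inter.1 h).2
    apply Finset.eq_of_subset_of_card_le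
    · intro v hv
      rcases mem_insert.1 hv with rfl | hv
      · exact hu1.1
      · rw [← hfp] at hv
        exact (mem_inter.1 hv).1
    · rw [card_insert_of_notMem hup, hp, h3 f hfF]
  have := (card_le_card hsub).trans card_image_le
  unfold dg at hU
  omega

theorem disj_of_trace {A f X p : Finset V} (hf : f ∩ A = p) (hX : X ⊆ A) (hd : Disjoint p X) :
    Disjoint f X := by
  rw [Finset.disjoint_left] at hd ⊢
  intro a ha haX
  exact hd (by rw [← hf]; exact mem_inter.2 ⟨ha, hX haX⟩) haX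

theorem disj_of_traces {A f g p q : Finset V} (hf : f ∩ A = p) (hg : g ∩ A = q)
    (hd : Disjoint p q) (ho : Disjoint (f \ A) (g \ A)) : Disjoint f g := by
  rw [Finset.disjoint_left] at hd ho ⊢
  intro a ha hag
  by_cases haA : a ∈ A
  · exact hd (by rw [← hf]; exact mem_inter.2 ⟨ha, haA⟩)
      (by rw [← hg]; exact mem_inter.2 ⟨hag, haA⟩)
  · exact ho (mem_sdiff.2 ⟨ha, haA⟩) (mem_sdiff.2 ⟨hag, haA⟩)

theorem card_out {A f p : Finset V} (hf : f.card = 3) (h : f ∩ A = p) :
    (f \ A).card = 3 - p.card := by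
  have := Finset.card_sdiff_add_card_inter f A
  rw [h, hf] at this
  omega

theorem VS_insert (P : Finset (Finset V)) (f : Finset V) : VS (insert f P) = f ∪ VS P := by
  unfold VS
  rw [Finset.biUnion_insert]
  rfl

/-- adding an edge to a matching -/
theorem extend {F : Finset (Finset V)} (h3 : ∀ e ∈ F, e.card = 3) {P : Finset (Finset V)}
    (hP : P ⊆ F) (hm : IsMatching P) {f : Finset V} (hf : f ∈ F) (hd : Disjoint f (VS P)) :
    insert f P ⊆ F ∧ IsMatching (insert f P) ∧ (insert f P).card = P.card + 1 ∧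
      VS (insert f P) = f ∪ VS P := by
  have hne : f.Nonempty := by
    rw [← Finset.card_pos, h3 f hf]; norm_num
  refine ⟨?_, hm.insert hd, card_insert_of_notMem (not_mem_of_disjoint_VS hne hd),
    VS_insert P f⟩
  intro e he
  rcases mem_insert.1 he with rfl | he
  · exact hf
  · exact hP he

theorem VS_mono {P Q : Finset (Finset V)} (h : P ⊆ Q) : VS P ⊆ VS Q := by
  intro v hv
  obtain ⟨e, he, hve⟩ := mem_VS.1 hv
  exact mem_VS.2 ⟨e, h he, hve⟩

theorem disj_VS_erase {Q : Finset (Finset V)} (hm : IsMatching Q) {t : Finset V} (ht : t ∈ Q)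
    {P : Finset (Finset V)} (hP : P ⊆ Q.erase t) : Disjoint t (VS P) := by
  rw [Finset.disjoint_left]
  intro a ha haP
  obtain ⟨e, he, hae⟩ := mem_VS.1 haP
  have h1 := mem_erase.1 (hP he)
  exact Finset.disjoint_left.1 (hm t ht e h1.2 (fun h => h1.1 h.symm)) ha hae

/-- a member of `A` only triples that is not missing is an edge -/
theorem edge_of_dg {F : Finset (Finset V)} (h3 : ∀ e ∈ F, e.card = 3) {A t : Finset V}
    (ht : t.card = 3) (h : dg F A t ≠ 0) : t ∈ F := by
  obtain ⟨f, hf, hft⟩ := exists_of_dg h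
  have : t = f := Finset.eq_of_subset_of_card_le (by rw [← hft]; exact inter_subset_left)
    (by rw [ht, h3 f hf])
  rw [this]
  exact hf

theorem card_filter_le_sum {β : Type} (S : Finset β) (p : β → Prop) [DecidablePred p]
    (g : β → ℕ) (h : ∀ a ∈ S, p a → 1 ≤ g a) : (S.filter p).card ≤ ∑ a ∈ S, g a := by
  rw [card_filter]
  apply sum_le_sum
  intro a ha
  by_cases hp : p a
  · rw [if_pos hp]; exact h a ha hp
  · rw [if_neg hp]; exact Nat.zero_le _

/-- **Heavy pair.** -/
theorem bet_ge_pair {F : Finset (Finset V)} {s : ℕ} (hs : 1 ≤ s) (h3 : ∀ e ∈ F, e.card = 3)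
    (hle : ∀ P ⊆ F, IsMatching P → P.card ≤ s) {A : Finset V} (hA : A.card = 3 * s) {x y : V}
    (hx : x ∈ A) (hy : y ∈ A) (hxy : x ≠ y) (hd : 3 ≤ dg F A {x, y}) :
    (3 * s - 1).choose 2 ≤ bet F A := by
  classical
  have hp2 : ({x, y} : Finset V).card = 2 := card_pair hxy
  -- two outside points
  obtain ⟨f1, hf1, ht1, -⟩ := pick h3 (A := A) hp2 (U := ∅) (by rw [card_empty]; omega)
  have hc1 := card_out (h3 f1 hf1) ht1
  rw [hp2] at hc1
  obtain ⟨w1, hw1⟩ := card_pos.1 (by omega : 0 < (f1 \ A).card)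
  obtain ⟨f2, hf2, ht2, hdd⟩ := pick h3 (A := A) hp2 (U := {w1}) (by rw [card_singleton]; omega)
  have hc2 := card_out (h3 f2 hf2) ht2
  rw [hp2] at hc2
  obtain ⟨w2, hw2⟩ := card_pos.1 (by omega : 0 < (f2 \ A).card)
  have hw1A : w1 ∉ A := (mem_sdiff.1 hw1).2
  have hw2A : w2 ∉ A := (mem_sdiff.1 hw2).2
  have hw12 : w1 ≠ w2 := by
    intro h
    rw [Finset.disjoint_singleton_right] at hdd
    exact hdd (by rw [h]; exact hw2)
  clear hdd hc1 hc2 hw1 hw2 ht1 ht2 hf1 hf2 f1 f2
  -- the bad triples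
  let B3 := (A.powersetCard 3).filter (fun q => dg F A q = 0)
  let B21 := ((A.powersetCard 2).filter (fun p => dg F A p = 0)).image (fun p => insert w1 p)
  let B22 := ((A.powersetCard 2).filter (fun p => dg F A p < 2)).image (fun p => insert w2 p)
  let B1 := ((A.powersetCard 1).filter (fun p => dg F A p = 0)).image
    (fun p => insert w1 (insert w2 p))
  let B := B3 ∪ ((B21 ∪ B22) ∪ B1)
  have hBcard : B.card ≤ bet F A := by
    have e3 : B3.card ≤ ∑ q ∈ A.powersetCard 3, (1 - dg F A q) :=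
      card_filter_le_sum _ _ _ (fun q _ h => by omega)
    have e1 : B1.card ≤ ∑ q ∈ A.powersetCard 1, (1 - dg F A q) :=
      card_image_le.trans (card_filter_le_sum _ _ _ (fun q _ h => by omega))
    have e2 : B21.card + B22.card ≤ ∑ q ∈ A.powersetCard 2, (2 - dg F A q) := by
      have a1 : B21.card ≤ ∑ q ∈ A.powersetCard 2, (1 - dg F A q) :=
        card_image_le.trans (card_filter_le_sum _ _ _ (fun q _ h => by omega))
      have a2 : B22.card ≤ ∑ q ∈ A.powersetCard 2, ((2 - dg F A q) - (1 - dg F A q)) :=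
        card_image_le.trans (card_filter_le_sum _ _ _ (fun q _ h => by omega))
      refine (Nat.add_le_add a1 a2).trans ?_
      rw [← sum_add_distrib]
      apply sum_le_sum
      intro q _
      omega
    have e4 : B.card ≤ B3.card + ((B21.card + B22.card) + B1.card) :=
      (card_union_le _ _).trans (Nat.add_le_add_left
        ((card_union_le _ _).trans (Nat.add_le_add_right (card_union_le _ _) _)) _)
    unfold bet
    omega
  -- the set of `3 s` points
  let Z : Finset V := insert w1 (insert w2 (A \ {x, y}))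
  have hpA : ({x, y} : Finset V) ⊆ A := by
    intro v hv
    rcases mem_insert.1 hv with rfl | hv
    · exact hx
    · rw [mem_singleton.1 hv]; exact hy
  have hw1Z : w1 ∉ insert w2 (A \ {x, y}) := by
    intro h
    rcases mem_insert.1 h with h | h
    · exact hw12 h
    · exact hw1A (mem_sdiff.1 h).1
  have hw2Z : w2 ∉ A \ {x, y} := fun h => hw2A (mem_sdiff.1 h).1
  have hAge : 2 ≤ A.card := by rw [← hp2]; exact card_le_card hpA
  have hZ : Z.card = 3 * s := by
    rw [card_insert_of_notMem hw1Z, card_insert_of_notMem hw2Z, card_sdiff_of_subset hpA, hp2,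
      hA]
    omega
  have hZA : ∀ v ∈ Z, v ∉ A → v = w1 ∨ v = w2 := by
    intro v hv hvA
    rcases mem_insert.1 hv with h | h
    · exact Or.inl h
    · rcases mem_insert.1 h with h | h
      · exact Or.inr h
      · exact absurd (mem_sdiff.1 h).1 hvA
  have hZxy : Disjoint ({x, y} : Finset V) Z := by
    rw [Finset.disjoint_left]
    intro v hv hvZ
    rcases mem_insert.1 hvZ with h | h
    · exact hw1A (h ▸ hpA hv)
    · rcases mem_insert.1 h with h | h
      · exact hw2A (h ▸ hpA hv)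
      · exact (mem_sdiff.1 h).2 hv
  refine (avg hs hZ B ?_).trans ((card_le_card (filter_subset _ _)).trans hBcard)
  intro Q hQ hQm hQc
  by_contra hno
  push Not at hno
  have hVS : VS Q = Z := by
    apply Finset.eq_of_subset_of_card_le
    · intro v hv
      obtain ⟨e, he, hve⟩ := mem_VS.1 hv
      exact (hQ e he).1 hve
    · rw [card_VS hQm (fun e he => (hQ e he).2), hQc, hZ]
  obtain ⟨t1, ht1Q, hwt1⟩ := mem_VS.1 (by rw [hVS]; exact mem_insert_self _ _ : w1 ∈ VS Q)
  obtain ⟨t2, ht2Q, hwt2⟩ := mem_VS.1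
    (by rw [hVS]; exact mem_insert_of_mem (mem_insert_self _ _) : w2 ∈ VS Q)
  -- the other triples are edges
  let P0 := (Q.erase t1).erase t2
  have hP0Q : P0 ⊆ Q := (erase_subset _ _).trans (erase_subset _ _)
  have hP0t : ∀ t ∈ P0, t ∈ Q ∧ t ≠ t1 ∧ t ≠ t2 := by
    intro t ht
    have h1 := mem_erase.1 ht
    have h2 := mem_erase.1 h1.2
    exact ⟨h2.2, h2.1, h1.1⟩
  have hP0A : ∀ t ∈ P0, t ⊆ A := by
    intro t ht v hv
    obtain ⟨h1, h2, h3'⟩ := hP0t t ht
    by_contra hvA
    rcases hZA v ((hQ t h1).1 hv) hvA with h | h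
    · exact Finset.disjoint_left.1 (hQm t h1 t1 ht1Q h2) hv (h ▸ hwt1)
    · exact Finset.disjoint_left.1 (hQm t h1 t2 ht2Q h3') hv (h ▸ hwt2)
  have hP0F : P0 ⊆ F := by
    intro t ht
    obtain ⟨h1, -, -⟩ := hP0t t ht
    refine edge_of_dg h3 (hQ t h1).2 (A := A) ?_
    intro h0
    exact hno t h1 (mem_union_left _ (mem_filter.2
      ⟨mem_powersetCard.2 ⟨hP0A t ht, (hQ t h1).2⟩, h0⟩))
  have hP0m : IsMatching P0 := hQm.mono hP0Q
  have hVA : VS P0 ⊆ A := by
    intro v hv
    obtain ⟨e, he, hve⟩ := mem_VS.1 hv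
    exact hP0A e he hve
  have hVxy : Disjoint ({x, y} : Finset V) (VS P0) :=
    hZxy.mono_right (by rw [← hVS]; exact VS_mono hP0Q)
  have hd1 : Disjoint t1 (VS P0) :=
    disj_VS_erase hQm ht1Q (erase_subset _ _)
  have hd2 : Disjoint t2 (VS P0) := by
    refine disj_VS_erase hQm ht2Q ?_
    intro t ht
    obtain ⟨h1, -, h3'⟩ := hP0t t ht
    exact mem_erase.2 ⟨h3', h1⟩
  by_cases h12 : t1 = t2
  · -- one triple contains both
    have hw2t1 : w2 ∈ t1 := by rw [h12]; exact hwt2
    let p := (t1.erase w1).erase w2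
    have hpc : p.card = 1 := by
      rw [card_erase_of_mem (mem_erase.2 ⟨hw12.symm, hw2t1⟩), card_erase_of_mem hwt1,
        (hQ t1 ht1Q).2]
    have hpt : p ⊆ t1 := (erase_subset _ _).trans (erase_subset _ _)
    have hpA' : p ⊆ A := by
      intro v hv
      have h1 := mem_erase.1 hv
      have h2 := mem_erase.1 h1.2
      by_contra hvA
      rcases hZA v ((hQ t1 ht1Q).1 h2.2) hvA with h | h
      · exact h2.1 h
      · exact h1.1 h
    have hpins : insert w1 (insert w2 p) = t1 := by
      rw [insert_erase (mem_erase.2 ⟨hw12.symm, hw2t1⟩), insert_erase hwt1]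
    have hne : dg F A p ≠ 0 := by
      intro h0
      refine hno t1 ht1Q (mem_union_right _ (mem_union_right _ (mem_image.2 ⟨p, ?_, hpins⟩)))
      exact mem_filter.2 ⟨mem_powersetCard.2 ⟨hpA', hpc⟩, h0⟩
    obtain ⟨f, hf, hft⟩ := exists_of_dg hne
    have hfd : Disjoint f (VS P0) := disj_of_trace hft hVA (hd1.mono_left hpt)
    obtain ⟨i1, i2, i3, i4⟩ := extend h3 hP0F hP0m hf hfd
    have hfo := card_out (h3 f hf) hft
    rw [hpc] at hfo
    obtain ⟨g, hg, hgt, hgd⟩ := pick h3 (A := A) hp2 (U := f \ A) (by omega)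
    have hgf : Disjoint g f := by
      refine disj_of_traces hgt hft ?_ hgd
      exact hZxy.mono_right (hpt.trans (hQ t1 ht1Q).1)
    have hgd' : Disjoint g (VS (insert f P0)) := by
      rw [i4, disjoint_union_right]
      exact ⟨hgf, disj_of_trace hgt hVA hVxy⟩
    obtain ⟨j1, j2, j3, j4⟩ := extend h3 i1 i2 hg hgd'
    have hle' := hle _ j1 j2
    have hc0 : P0.card = s - 1 := by
      have h5 : P0 = Q.erase t1 := by
        apply erase_eq_of_notMem
        rw [← h12]
        exact notMem_erase _ _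
      rw [h5, card_erase_of_mem ht1Q, hQc]
    omega
  · -- two triples
    have hw2t1 : w2 ∉ t1 := fun h =>
      Finset.disjoint_left.1 (hQm t1 ht1Q t2 ht2Q h12) h hwt2
    have hw1t2 : w1 ∉ t2 := fun h =>
      Finset.disjoint_left.1 (hQm t1 ht1Q t2 ht2Q h12) hwt1 h
    let p1 := t1.erase w1
    let p2 := t2.erase w2
    have hp1c : p1.card = 2 := by rw [card_erase_of_mem hwt1, (hQ t1 ht1Q).2]
    have hp2c : p2.card = 2 := by rw [card_erase_of_mem hwt2, (hQ t2 ht2Q).2]
    have hp1t : p1 ⊆ t1 := erase_subset _ _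
    have hp2t : p2 ⊆ t2 := erase_subset _ _
    have hp1A : p1 ⊆ A := by
      intro v hv
      have h1 := mem_erase.1 hv
      by_contra hvA
      rcases hZA v ((hQ t1 ht1Q).1 h1.2) hvA with h | h
      · exact h1.1 h
      · exact hw2t1 (h ▸ h1.2)
    have hp2A : p2 ⊆ A := by
      intro v hv
      have h1 := mem_erase.1 hv
      by_contra hvA
      rcases hZA v ((hQ t2 ht2Q).1 h1.2) hvA with h | h
      · exact hw1t2 (h ▸ h1.2)
      · exact h1.1 h
    have hne1 : dg F A p1 ≠ 0 := by
      intro h0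
      refine hno t1 ht1Q (mem_union_right _ (mem_union_left _ (mem_union_left _
        (mem_image.2 ⟨p1, ?_, insert_erase hwt1⟩))))
      exact mem_filter.2 ⟨mem_powersetCard.2 ⟨hp1A, hp1c⟩, h0⟩
    have hne2 : ¬ dg F A p2 < 2 := by
      intro h0
      refine hno t2 ht2Q (mem_union_right _ (mem_union_left _ (mem_union_right _
        (mem_image.2 ⟨p2, ?_, insert_erase hwt2⟩))))
      exact mem_filter.2 ⟨mem_powersetCard.2 ⟨hp2A, hp2c⟩, h0⟩
    obtain ⟨f, hf, hft⟩ := exists_of_dg hne1
    have hfd : Disjoint f (VS P0) := disj_of_trace hft hVA (hd1.mono_left hp1t)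
    obtain ⟨i1, i2, i3, i4⟩ := extend h3 hP0F hP0m hf hfd
    have hfo := card_out (h3 f hf) hft
    rw [hp1c] at hfo
    obtain ⟨k, hk, hkt, hkd⟩ := pick h3 (A := A) hp2c (U := f \ A) (by omega)
    have hko := card_out (h3 k hk) hkt
    rw [hp2c] at hko
    have hp21 : Disjoint p2 p1 :=
      ((hQm t2 ht2Q t1 ht1Q (fun h => h12 h.symm)).mono_left hp2t).mono_right hp1t
    have hkd' : Disjoint k (VS (insert f P0)) := by
      rw [i4, disjoint_union_right]
      exact ⟨disj_of_traces hkt hft hp21 hkd,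
        disj_of_trace hkt hVA (hd2.mono_left hp2t)⟩
    obtain ⟨j1, j2, j3, j4⟩ := extend h3 i1 i2 hk hkd'
    obtain ⟨g, hg, hgt, hgd⟩ := pick h3 (A := A) hp2 (U := (f \ A) ∪ (k \ A)) (by
      have := card_union_le (f \ A) (k \ A)
      omega)
    rw [disjoint_union_right] at hgd
    have hgd' : Disjoint g (VS (insert k (insert f P0))) := by
      rw [j4, i4, disjoint_union_right, disjoint_union_right]
      refine ⟨disj_of_traces hgt hkt ?_ hgd.2, disj_of_traces hgt hft ?_ hgd.1,
        disj_of_trace hgt hVA hVxy⟩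
      · exact hZxy.mono_right (hp2t.trans (hQ t2 ht2Q).1)
      · exact hZxy.mono_right (hp1t.trans (hQ t1 ht1Q).1)
    obtain ⟨l1, l2, l3, -⟩ := extend h3 j1 j2 hg hgd'
    have hle' := hle _ l1 l2
    have hc0 : P0.card = s - 2 := by
      have h5 : t2 ∈ Q.erase t1 := mem_erase.2 ⟨fun h => h12 h.symm, ht2Q⟩
      rw [card_erase_of_mem h5, card_erase_of_mem ht1Q, hQc]
      omega
    omega

/-- **Heavy point.** -/
theorem bet_ge_point {F : Finset (Finset V)} {s : ℕ} (hs : 1 ≤ s) (h3 : ∀ e ∈ F, e.card = 3)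
    (hle : ∀ P ⊆ F, IsMatching P → P.card ≤ s) {A : Finset V} (hA : A.card = 3 * s) {x : V}
    (hx : x ∈ A) (hd : 2 ≤ dg F A {x}) :
    (3 * s - 1).choose 2 ≤ bet F A := by
  classical
  have hp1 : ({x} : Finset V).card = 1 := card_singleton x
  have hpA : ({x} : Finset V) ⊆ A := singleton_subset_iff.2 hx
  -- two edges
  obtain ⟨e, he, f, hf, hef⟩ := one_lt_card.1 (by
    unfold dg at hd
    omega : 1 < (F.filter (fun e => e ∩ A = {x})).card)
  obtain ⟨heF, het⟩ := mem_filter.1 he
  obtain ⟨hfF, hft⟩ := mem_filter.1 hf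
  have heo := card_out (h3 e heF) het
  have hfo := card_out (h3 f hfF) hft
  rw [hp1] at heo hfo
  -- a point `c` such that every other outside point is avoided
  obtain ⟨c, hc⟩ : ∃ c : V, ∀ u, u ∉ A → u ≠ c →
      ∃ g ∈ F, g ∩ A = {x} ∧ u ∉ g := by
    have hint : ((e \ A) ∩ (f \ A)).card ≤ 1 := by
      by_contra hcon
      have h2 : (e \ A) ∩ (f \ A) = e \ A := Finset.eq_of_subset_of_card_le inter_subset_left
        (by omega)
      have h4 : (e \ A) ∩ (f \ A) = f \ A := Finset.eq_of_subset_of_card_le inter_subset_right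
        (by omega)
      apply hef
      rw [← sdiff_union_inter e A, ← sdiff_union_inter f A, het, hft, ← h2, h4]
    have key : ∀ u, u ∉ A → u ∉ (e \ A) ∩ (f \ A) → ∃ g ∈ F, g ∩ A = {x} ∧ u ∉ g := by
      intro u hu hun
      by_cases hue : u ∈ e
      · refine ⟨f, hfF, hft, fun huf => hun ?_⟩
        exact mem_inter.2 ⟨mem_sdiff.2 ⟨hue, hu⟩, mem_sdiff.2 ⟨huf, hu⟩⟩
      · exact ⟨e, heF, het, hue⟩
    rcases Finset.eq_empty_or_nonempty ((e \ A) ∩ (f \ A)) with h0 | ⟨c, hc⟩
    · refine ⟨x, fun u hu _ => key u hu ?_⟩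
      rw [h0]
      exact notMem_empty _
    · refine ⟨c, fun u hu huc => key u hu ?_⟩
      intro hcon
      exact huc (card_le_one.1 hint u hcon c hc)
  obtain ⟨w1, hw1⟩ := card_pos.1 (by omega : 0 < (e \ A).card)
  have hw1A : w1 ∉ A := (mem_sdiff.1 hw1).2
  -- the bad triples
  let B3 := (A.powersetCard 3).filter (fun q => dg F A q = 0)
  let B21 := ((A.powersetCard 2).filter (fun p => ∀ g ∈ F, g ∩ A = p → c ∈ g \ A)).image
    (fun p => insert w1 p)
  let B := B3 ∪ B21
  have hBcard : B.card ≤ bet F A := by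
    have e3 : B3.card ≤ ∑ q ∈ A.powersetCard 3, (1 - dg F A q) :=
      card_filter_le_sum _ _ _ (fun q _ h => by omega)
    have e2 : B21.card ≤ ∑ q ∈ A.powersetCard 2, (2 - dg F A q) := by
      refine card_image_le.trans (card_filter_le_sum _ _ _ (fun q hq h => ?_))
      have h5 : dg F A q ≤ 1 := by
        by_contra hcon
        obtain ⟨g, hg, hgt, hgd⟩ := pick h3 (A := A) (mem_powersetCard.1 hq).2 (U := {c}) (by
          rw [card_singleton]; omega)
        rw [disjoint_singleton_right] at hgd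
        exact hgd (h g hg hgt)
      omega
    have e4 : B.card ≤ B3.card + B21.card := card_union_le _ _
    unfold bet
    omega
  -- the set of `3 s` points
  let Z : Finset V := insert w1 (A \ {x})
  have hw1Z : w1 ∉ A \ {x} := fun h => hw1A (mem_sdiff.1 h).1
  have hZ : Z.card = 3 * s := by
    rw [card_insert_of_notMem hw1Z, card_sdiff_of_subset hpA, hp1, hA]
    omega
  have hZA : ∀ v ∈ Z, v ∉ A → v = w1 := by
    intro v hv hvA
    rcases mem_insert.1 hv with h | h
    · exact h
    · exact absurd (mem_sdiff.1 h).1 hvA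
  have hZx : Disjoint ({x} : Finset V) Z := by
    rw [Finset.disjoint_left]
    intro v hv hvZ
    rcases mem_insert.1 hvZ with h | h
    · exact hw1A (h ▸ hpA hv)
    · exact (mem_sdiff.1 h).2 hv
  refine (avg hs hZ B ?_).trans ((card_le_card (filter_subset _ _)).trans hBcard)
  intro Q hQ hQm hQc
  by_contra hno
  push Not at hno
  have hVS : VS Q = Z := by
    apply Finset.eq_of_subset_of_card_le
    · intro v hv
      obtain ⟨e, he, hve⟩ := mem_VS.1 hv
      exact (hQ e he).1 hve
    · rw [card_VS hQm (fun e he => (hQ e he).2), hQc, hZ]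
  obtain ⟨t1, ht1Q, hwt1⟩ := mem_VS.1 (by rw [hVS]; exact mem_insert_self _ _ : w1 ∈ VS Q)
  let P0 := Q.erase t1
  have hP0Q : P0 ⊆ Q := erase_subset _ _
  have hP0A : ∀ t ∈ P0, t ⊆ A := by
    intro t ht v hv
    have h1 := mem_erase.1 ht
    by_contra hvA
    exact Finset.disjoint_left.1 (hQm t h1.2 t1 ht1Q h1.1) hv
      ((hZA v ((hQ t h1.2).1 hv) hvA) ▸ hwt1)
  have hP0F : P0 ⊆ F := by
    intro t ht
    have h1 := mem_erase.1 ht
    refine edge_of_dg h3 (hQ t h1.2).2 (A := A) ?_
    intro h0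
    exact hno t h1.2 (mem_union_left _ (mem_filter.2
      ⟨mem_powersetCard.2 ⟨hP0A t ht, (hQ t h1.2).2⟩, h0⟩))
  have hP0m : IsMatching P0 := hQm.mono hP0Q
  have hVA : VS P0 ⊆ A := by
    intro v hv
    obtain ⟨e, he, hve⟩ := mem_VS.1 hv
    exact hP0A e he hve
  have hVx : Disjoint ({x} : Finset V) (VS P0) :=
    hZx.mono_right (by rw [← hVS]; exact VS_mono hP0Q)
  have hd1 : Disjoint t1 (VS P0) := disj_VS_erase hQm ht1Q (Subset.refl _)
  let p1 := t1.erase w1
  have hp1c : p1.card = 2 := by rw [card_erase_of_mem hwt1, (hQ t1 ht1Q).2]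
  have hp1t : p1 ⊆ t1 := erase_subset _ _
  have hp1A : p1 ⊆ A := by
    intro v hv
    have h1 := mem_erase.1 hv
    by_contra hvA
    exact h1.1 (hZA v ((hQ t1 ht1Q).1 h1.2) hvA)
  have hne1 : ¬ ∀ g ∈ F, g ∩ A = p1 → c ∈ g \ A := by
    intro h0
    refine hno t1 ht1Q (mem_union_right _ (mem_image.2 ⟨p1, ?_, insert_erase hwt1⟩))
    exact mem_filter.2 ⟨mem_powersetCard.2 ⟨hp1A, hp1c⟩, h0⟩
  push Not at hne1
  obtain ⟨k, hk, hkt, hkc⟩ := hne1
  have hkd : Disjoint k (VS P0) := disj_of_trace hkt hVA (hd1.mono_left hp1t)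
  obtain ⟨i1, i2, i3, i4⟩ := extend h3 hP0F hP0m hk hkd
  have hko := card_out (h3 k hk) hkt
  rw [hp1c] at hko
  obtain ⟨u, hu⟩ := card_eq_one.1 (by omega : (k \ A).card = 1)
  have huk : u ∈ k \ A := by rw [hu]; exact mem_singleton_self u
  obtain ⟨g, hg, hgt, hgu⟩ := hc u (mem_sdiff.1 huk).2 (by
    intro h
    exact hkc (h ▸ huk))
  have hgd' : Disjoint g (VS (insert k P0)) := by
    rw [i4, disjoint_union_right]
    refine ⟨disj_of_traces hgt hkt (hZx.mono_right (hp1t.trans (hQ t1 ht1Q).1)) ?_,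
      disj_of_trace hgt hVA hVx⟩
    rw [hu, disjoint_singleton_right]
    exact fun h => hgu (mem_sdiff.1 h).1
  obtain ⟨l1, l2, l3, -⟩ := extend h3 i1 i2 hg hgd'
  have hle' := hle _ l1 l2
  have hc0 : P0.card = s - 1 := by rw [card_erase_of_mem ht1Q, hQc]
  omega

/-- **T3.** Either there is no excess at all, or the compressed family misses at least
`C(3s-1, 2)` triples. -/
theorem bet_ge {F : Finset (Finset V)} {s : ℕ} (hs : 1 ≤ s) (h3 : ∀ e ∈ F, e.card = 3)
    (hle : ∀ P ⊆ F, IsMatching P → P.card ≤ s) {A : Finset V} (hA : A.card = 3 * s)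
    (hex : E1 F A + E2 F A ≠ 0) : (3 * s - 1).choose 2 ≤ bet F A := by
  by_cases h1 : E1 F A = 0
  · have h2 : E2 F A ≠ 0 := by omega
    unfold E2 at h2
    obtain ⟨p, hp, hpd⟩ := Finset.exists_ne_zero_of_sum_ne_zero h2
    obtain ⟨hpA, hpc⟩ := mem_powersetCard.1 hp
    obtain ⟨x, rfl⟩ := card_eq_one.1 hpc
    exact bet_ge_point hs h3 hle hA (singleton_subset_iff.1 hpA) (by omega)
  · unfold E1 at h1
    obtain ⟨p, hp, hpd⟩ := Finset.exists_ne_zero_of_sum_ne_zero h1
    obtain ⟨hpA, hpc⟩ := mem_powersetCard.1 hp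
    obtain ⟨x, y, hxy, rfl⟩ := card_eq_two.1 hpc
    exact bet_ge_pair hs h3 hle hA (hpA (mem_insert_self _ _))
      (hpA (mem_insert_of_mem (mem_singleton_self _))) hxy (by omega)

/-- **T3, counting form.** -/
theorem card_add_le {F : Finset (Finset V)} {s : ℕ} (hs : 1 ≤ s) (h3 : ∀ e ∈ F, e.card = 3)
    (hle : ∀ P ⊆ F, IsMatching P → P.card ≤ s) {A : Finset V} (hA : A.card = 3 * s)
    (hcov : ∀ e ∈ F, (e ∩ A).Nonempty) (hex : E1 F A + E2 F A ≠ 0) :
    F.card + (3 * s - 1).choose 2 ≤ (3 * s + 2).choose 3 + E1 F A + E2 F A := by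
  have h1 := card_add_bet h3 hcov
  have h2 := bet_ge hs h3 hle hA hex
  rw [hA] at h1
  omega

/-- **The criterion (C*).** A cover with `3 s` points and excess at most `C(3s-1, 2)`. -/
theorem card_le_of_excess {F : Finset (Finset V)} {s : ℕ} (hs : 1 ≤ s)
    (h3 : ∀ e ∈ F, e.card = 3) (hle : ∀ P ⊆ F, IsMatching P → P.card ≤ s) {A : Finset V}
    (hA : A.card = 3 * s) (hcov : ∀ e ∈ F, (e ∩ A).Nonempty)
    (hex : E1 F A + E2 F A ≤ (3 * s - 1).choose 2) : F.card ≤ (3 * s + 2).choose 3 := by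
  by_cases h0 : E1 F A + E2 F A = 0
  · have h1 := card_add_bet h3 hcov
    rw [hA] at h1
    omega
  · have h1 := card_add_le hs h3 hle hA hcov h0
    omega

/-- The criterion for the vertex set of a maximum matching. -/
theorem card_le_of_excess_matching {F : Finset (Finset V)} {s : ℕ} (hs : 1 ≤ s) (h : Hyp F s)
    {P : Finset (Finset V)} (hP : P ⊆ F) (hm : IsMatching P) (hc : P.card = s)
    (hex : E1 F (VS P) + E2 F (VS P) ≤ (3 * s - 1).choose 2) :
    F.card ≤ (3 * s + 2).choose 3 := by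
  refine card_le_of_excess hs h.three h.le (A := VS P) ?_ ?_ hex
  · rw [card_VS hm (fun e he => h.three e (hP he)), hc]
  · intro e he
    rw [← Finset.not_disjoint_iff_nonempty_inter]
    exact h.meets hP hm hc he

end Helper28.Res
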