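import Mathlib
import Pool.Agent.Helper12.Res.Defs
import Pool.Agent.Helper28.Res.T3

/-!
# The codegree slack

If every pair has codegree at most `c` and `A` is a cover with `3 s` points, then
`3 |F| ≤ c C(3s, 2) + 2 N2 + 3 N1`, where `N2`, `N1` are the numbers of edges with exactly two,
one, points in `A`.
-/

namespace Helper28.Res

open Finset Res12

variable {V : Type} [Fintype V] [DecidableEq V]

/-- the number of edges with exactly `i` points in `A` -/
def Nt (F : Finset (Finset V)) (A : Finset V) (i : ℕ) : ℕ :=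
  (F.filter (fun e => (e ∩ A).card = i)).card

theorem Nt_eq (F : Finset (Finset V)) (A : Finset V) (i : ℕ) :
    Nt F A i = ∑ p ∈ A.powersetCard i, dg F A p := fiber F A i

theorem card_eq_Nt {F : Finset (Finset V)} (h3 : ∀ e ∈ F, e.card = 3) {A : Finset V}
    (hcov : ∀ e ∈ F, (e ∩ A).Nonempty) : F.card = Nt F A 3 + Nt F A 2 + Nt F A 1 := by
  have h1 := Finset.card_filter_add_card_filter_not (s := F) (fun e => (e ∩ A).card = 3)
  have h2 := Finset.card_filter_add_card_filter_not
    (s := F.filter (fun e => ¬ (e ∩ A).card = 3)) (fun e => (e ∩ A).card = 2)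
  rw [filter_filter, filter_filter] at h2
  have e1 : F.filter (fun e => ¬ (e ∩ A).card = 3 ∧ (e ∩ A).card = 2) =
      F.filter (fun e => (e ∩ A).card = 2) := by
    apply filter_congr
    intro e _
    constructor
    · rintro ⟨-, h⟩; exact h
    · intro h; exact ⟨by omega, h⟩
  have e2 : F.filter (fun e => ¬ (e ∩ A).card = 3 ∧ ¬ (e ∩ A).card = 2) =
      F.filter (fun e => (e ∩ A).card = 1) := by
    apply filter_congr
    intro e he
    have h4 : 1 ≤ (e ∩ A).card := card_pos.2 (hcov e he)
    have h5 : (e ∩ A).card ≤ 3 := (card_le_card inter_subset_left).trans (h3 e he).le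
    constructor
    · rintro ⟨h6, h7⟩; omega
    · intro h; omega
  rw [e1, e2] at h2
  unfold Nt
  omega

/-- the codegree counts the edges which contain the pair -/
theorem card_N_eq {F : Finset (Finset V)} (h3 : ∀ e ∈ F, e.card = 3) {a b : V} (hab : a ≠ b) :
    (N F a b).card = (F.filter (fun e => ({a, b} : Finset V) ⊆ e)).card := by
  refine Finset.card_bij (fun c _ => ({a, b, c} : Finset V)) ?_ ?_ ?_
  · intro c hc
    rw [mem_filter]
    refine ⟨mem_N.1 hc, ?_⟩
    intro v hv
    simp only [mem_insert, mem_singleton] at hv ⊢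
    tauto
  · intro c hc c' hc' h
    have h1 : ({a, b, c} : Finset V).card = 3 := h3 _ (mem_N.1 hc)
    have hcm : c ∈ ({a, b, c'} : Finset V) := by
      rw [← h]; simp
    simp only [mem_insert, mem_singleton] at hcm
    rcases hcm with h2 | h2 | h2
    · exfalso
      rw [h2] at h1
      have : ({a, b, a} : Finset V).card ≤ 2 := by
        have h5 : ({a, b, a} : Finset V) = {a, b} := by
          ext v; simp only [mem_insert, mem_singleton]; tauto
        rw [h5]; exact card_le_two
      omega
    · exfalso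
      rw [h2] at h1
      have : ({a, b, b} : Finset V).card ≤ 2 := by
        have h5 : ({a, b, b} : Finset V) = {a, b} := by
          ext v; simp only [mem_insert, mem_singleton]; tauto
        rw [h5]; exact card_le_two
      omega
    · exact h2
  · intro e he
    obtain ⟨heF, hsub⟩ := mem_filter.1 he
    have h1 := h3 e heF
    have h2 : (e \ {a, b}).card = 1 := by
      rw [card_sdiff_of_subset hsub, h1, card_pair hab]
    obtain ⟨c, hc⟩ := card_eq_one.1 h2
    have h4 : e = {a, b, c} := by
      rw [← sdiff_union_of_subset hsub, hc]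
      ext v
      simp only [mem_union, mem_insert, mem_singleton]
      tauto
    refine ⟨c, ?_, h4.symm⟩
    rw [mem_N, ← h4]
    exact heF

/-- double counting the pairs of `A` -/
theorem sum_codeg {F : Finset (Finset V)} (h3 : ∀ e ∈ F, e.card = 3) (A : Finset V) :
    ∑ p ∈ A.powersetCard 2, (F.filter (fun e => p ⊆ e)).card = 3 * Nt F A 3 + Nt F A 2 := by
  have h1 : ∑ p ∈ A.powersetCard 2, (F.filter (fun e => p ⊆ e)).card =
      ∑ e ∈ F, ((e ∩ A).card).choose 2 := by
    simp only [card_filter]
    rw [sum_comm]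
    apply sum_congr rfl
    intro e _
    rw [← card_powersetCard, ← card_filter]
    congr 1
    ext p
    simp only [mem_filter, mem_powersetCard, subset_inter_iff]
    tauto
  rw [h1]
  have h2 : ∀ e ∈ F, ((e ∩ A).card).choose 2 =
      3 * (if (e ∩ A).card = 3 then 1 else 0) + (if (e ∩ A).card = 2 then 1 else 0) := by
    intro e he
    have h5 : (e ∩ A).card ≤ 3 := (card_le_card inter_subset_left).trans (h3 e he).le
    interval_cases (e ∩ A).card <;> simp [Nat.choose]
  rw [sum_congr rfl h2, sum_add_distrib, ← mul_sum]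
  unfold Nt
  rw [card_filter, card_filter]

/-- **The codegree slack.** -/
theorem three_card_le {F : Finset (Finset V)} (h3 : ∀ e ∈ F, e.card = 3) {A : Finset V}
    (hcov : ∀ e ∈ F, (e ∩ A).Nonempty) {c : ℕ} (hc : ∀ a b : V, a ≠ b → (N F a b).card ≤ c) :
    3 * F.card ≤ c * A.card.choose 2 + 2 * Nt F A 2 + 3 * Nt F A 1 := by
  have h1 := card_eq_Nt h3 hcov
  have h2 := sum_codeg h3 A
  have h4 : ∑ p ∈ A.powersetCard 2, (F.filter (fun e => p ⊆ e)).card ≤ c * A.card.choose 2 := by
    rw [← card_powersetCard, mul_comm, ← smul_eq_mul, ← sum_const]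
    apply sum_le_sum
    intro p hp
    obtain ⟨-, hpc⟩ := mem_powersetCard.1 hp
    obtain ⟨a, b, hab, rfl⟩ := card_eq_two.1 hpc
    rw [← card_N_eq h3 hab]
    exact hc a b hab
  omega

theorem three_choose (s : ℕ) :
    (3 * s + 4) * (3 * s).choose 2 + 9 * s = 3 * (3 * s + 2).choose 3 := by
  have h1 := Nat.add_one_mul_choose_eq (3 * s + 1) 2
  have h2 := Nat.add_one_mul_choose_eq (3 * s) 1
  rw [Nat.choose_one_right] at h2
  have h5 : (3 * s + 1).choose 2 = (3 * s).choose 1 + (3 * s).choose 2 :=
    Nat.choose_succ_succ' (3 * s) 1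
  rw [Nat.choose_one_right] at h5
  rw [h5] at h1 h2
  simp only [Nat.reduceAdd, add_assoc] at h1 h2
  nlinarith [h1, h2]

/-- **The criterion (helper36).** With `j = 3 s - (maximal codegree)` and a cover `A` with `3 s`
points, `2 N2 + 3 N1 ≤ (4 + j) C(3s, 2) + 9 s` is enough. -/
theorem card_le_of_codeg {F : Finset (Finset V)} (h3 : ∀ e ∈ F, e.card = 3) {s j : ℕ}
    {A : Finset V} (hA : A.card = 3 * s) (hcov : ∀ e ∈ F, (e ∩ A).Nonempty)
    (hc : ∀ a b : V, a ≠ b → (N F a b).card + j ≤ 3 * s)
    (hN : 2 * Nt F A 2 + 3 * Nt F A 1 ≤ (4 + j) * (3 * s).choose 2 + 9 * s) :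
    F.card ≤ (3 * s + 2).choose 3 := by
  by_cases hA2 : (A.powersetCard 2).Nonempty
  · obtain ⟨p, hp⟩ := hA2
    obtain ⟨-, hpc⟩ := mem_powersetCard.1 hp
    obtain ⟨a, b, hab, -⟩ := card_eq_two.1 hpc
    have hj : j ≤ 3 * s := by have := hc a b hab; omega
    have h1 := three_card_le h3 hcov (c := 3 * s - j) (fun a b hab => by
      have := hc a b hab; omega)
    rw [hA] at h1
    have h2 := three_choose s
    have h4 : (3 * s - j) * (3 * s).choose 2 + (4 + j) * (3 * s).choose 2 =
        (3 * s + 4) * (3 * s).choose 2 := by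
      rw [← add_mul]
      congr 1
      omega
    omega
  · -- `s = 0`
    rw [not_nonempty_iff_eq_empty, powersetCard_eq_empty] at hA2
    have hs : s = 0 := by omega
    subst hs
    have hA0 : A = ∅ := card_eq_zero.1 (by omega)
    have hF : F = ∅ := by
      rw [eq_empty_iff_forall_notMem]
      intro e he
      have := hcov e he
      rw [hA0, inter_empty] at this
      exact absurd rfl this.ne_empty
    rw [hF, card_empty]
    exact Nat.zero_le _

end Helper28.Res
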