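import Pool.Agent.Helper83.Res.TheoremX
import Pool.Agent.Helper28.Res.Cap

/-!
# Route A (helper36): common definitions

`x ≠ y` is a pair of maximal codegree `3 s - j`, `P` a matching with `s` edges avoiding `x`, `y`.
`E = N F x y ⊆ VS P`, `J = VS P \ E` has `j` points.  The type of a block `e ∈ P` is the number of
its points in `J`.
-/

namespace RouteA

open Finset Res12

set_option linter.unusedSectionVars false

variable {V : Type} [Fintype V] [DecidableEq V]

/-- The set-up of route A. -/
structure SetUp (F : Finset (Finset V)) (s j : ℕ) (P : Finset (Finset V)) (x y : V) : Prop where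
  hyp : Hyp F s
  sub : P ⊆ F
  mat : IsMatching P
  card : P.card = s
  ne : x ≠ y
  avx : x ∉ VS P
  avy : y ∉ VS P
  codeg : (N F x y).card + j = 3 * s
  cmax : ∀ a b : V, a ≠ b → (N F a b).card + j ≤ 3 * s

/-- number of neighbours of the pair `a b` outside `VS P` (this counts `x` and `y`) -/
def dW (F P : Finset (Finset V)) (a b : V) : ℕ := (N F a b \ VS P).card

/-- the labels of the pair `a b`: its neighbours outside `VS P`, `x` and `y` not counted -/
def lb (F P : Finset (Finset V)) (x y a b : V) : Finset V := N F a b \ (VS P ∪ {x, y})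

/-- `λ(a b) = dW - 2`, an integer -/
def lam (F P : Finset (Finset V)) (a b : V) : ℤ := (dW F P a b : ℤ) - 2

/-- the type of a block: number of its points which are not in `E = N F x y` -/
def ty (F : Finset (Finset V)) (x y : V) (e : Finset V) : ℕ := (e \ N F x y).card

/-- the missing triples which meet exactly the blocks of `S` and lie inside `VS S`
(use `S` = a pair or a triple of blocks) -/
def mis (F S : Finset (Finset V)) : Finset (Finset V) :=
  ((VS S).powersetCard 3).filter (fun t => t ∉ F ∧ bl S t = S)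

/-- the points `z` in a third block with `{a, b, z}` missing (`a ∈ e`, `b ∈ f`) -/
def m3 (F P : Finset (Finset V)) (e f : Finset V) (a b : V) : Finset V :=
  (VS (P \ {e, f})).filter (fun z => ({a, b, z} : Finset V) ∉ F)

/-- the points `z` of `e ∪ f` with `{a, b, z}` missing (`a ∈ e`, `b ∈ f`) -/
def m2 (F : Finset (Finset V)) (e f : Finset V) (a b : V) : Finset V :=
  ((e ∪ f) \ {a, b}).filter (fun z => ({a, b, z} : Finset V) ∉ F)

/-- the edges with the single point `p` in `VS P` and none of `x`, `y`: pairs of outside points -/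
def Gp (F P : Finset (Finset V)) (x y p : V) : Finset (Finset V) :=
  F.filter (fun e => e ∩ VS P = {p} ∧ x ∉ e ∧ y ∉ e)

/-- **LA1.** The set-up exists. -/
theorem exists_setup {F : Finset (Finset V)} {s : ℕ} (h : Hyp F s) (hF : F.Nonempty) :
    ∃ j P x y, SetUp F s j P x y := by
  classical
  -- there are two different points
  obtain ⟨a0, b0, hab0⟩ : ∃ a b : V, a ≠ b := by
    obtain ⟨e, he⟩ := hF
    have h3 := h.three e he
    obtain ⟨a, ha, b, hb, hab⟩ := one_lt_card.1 (by omega : 1 < e.card)
    exact ⟨a, b, hab⟩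
  let S : Finset (V × V) := univ.filter (fun p => p.1 ≠ p.2)
  have hS : S.Nonempty := ⟨(a0, b0), by simp [S, hab0]⟩
  obtain ⟨⟨x, y⟩, hxy, hmax⟩ := Finset.exists_max_image S (fun p => (N F p.1 p.2).card) hS
  have hne : x ≠ y := by simpa [S] using hxy
  obtain ⟨P, hP, hm, hc, hav⟩ := h.avoid x y
  have hle := h.card_N_le x y
  refine ⟨3 * s - (N F x y).card, P, x, y, h, hP, hm, hc, hne, ?_, ?_, by omega, ?_⟩
  · intro hx
    obtain ⟨e, he, hxe⟩ := mem_VS.1 hx
    exact (hav e he).1 hxe
  · intro hy
    obtain ⟨e, he, hye⟩ := mem_VS.1 hy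
    exact (hav e he).2 hye
  · intro a b hab
    have h1 : (N F a b).card ≤ (N F x y).card := hmax (a, b) (by simp [S, hab])
    omega

section
variable {F P : Finset (Finset V)} {s j : ℕ} {x y : V}

theorem SetUp.three (h : SetUp F s j P x y) : ∀ e ∈ F, e.card = 3 := h.hyp.three

theorem SetUp.threeP (h : SetUp F s j P x y) : ∀ e ∈ P, e.card = 3 :=
  fun e he => h.hyp.three e (h.sub he)

theorem SetUp.card_VS (h : SetUp F s j P x y) : (VS P).card = 3 * s := by
  rw [Res12.card_VS h.mat h.threeP, h.card]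

theorem SetUp.N_sub (h : SetUp F s j P x y) : N F x y ⊆ VS P := by
  refine h.hyp.N_subset h.sub h.mat h.card (fun e he => ⟨fun hx => ?_, fun hy => ?_⟩)
  · exact h.avx (mem_VS.2 ⟨e, he, hx⟩)
  · exact h.avy (mem_VS.2 ⟨e, he, hy⟩)

theorem SetUp.meets (h : SetUp F s j P x y) {e : Finset V} (he : e ∈ F) :
    ¬ Disjoint e (VS P) := h.hyp.meets h.sub h.mat h.card he

theorem SetUp.cover (h : SetUp F s j P x y) : ∀ e ∈ F, (e ∩ VS P).Nonempty := by
  intro e he
  rw [← Finset.not_disjoint_iff_nonempty_inter]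
  exact h.meets he

theorem SetUp.bl_nonempty (h : SetUp F s j P x y) : ∀ g ∈ F, (bl P g).Nonempty := by
  intro g hg
  obtain ⟨v, hv⟩ := h.cover g hg
  rw [mem_inter] at hv
  obtain ⟨b, hb, hvb⟩ := mem_VS.1 hv.2
  exact ⟨b, mem_bl.2 ⟨hb, Finset.not_disjoint_iff.2 ⟨v, hvb, hv.1⟩⟩⟩

theorem SetUp.card_J (h : SetUp F s j P x y) : (VS P \ N F x y).card = j := by
  have h1 := h.codeg
  rw [card_sdiff_of_subset h.N_sub, h.card_VS]
  omega

theorem SetUp.ty_le (h : SetUp F s j P x y) {e : Finset V} (he : e ∈ P) : ty F x y e ≤ 3 :=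
  (card_le_card sdiff_subset).trans (h.threeP e he).le

/-- the types add up to `j` -/
theorem SetUp.sum_ty (h : SetUp F s j P x y) : ∑ e ∈ P, ty F x y e = j := by
  rw [← h.card_J]
  unfold ty
  rw [← card_biUnion]
  · congr 1
    ext v
    simp only [mem_biUnion, mem_sdiff, mem_VS]
    constructor
    · rintro ⟨e, he, hv, hn⟩
      exact ⟨⟨e, he, hv⟩, hn⟩
    · rintro ⟨⟨e, he, hv⟩, hn⟩
      exact ⟨e, he, hv, hn⟩
  · intro e he f hf hef
    exact (h.mat e he f hf hef).mono sdiff_subset sdiff_subset

/-- `dW = (number of labels) + (number of x, y)` -/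
theorem SetUp.dW_eq (h : SetUp F s j P x y) (a b : V) :
    dW F P a b = (lb F P x y a b).card + (N F a b ∩ {x, y}).card := by
  unfold dW lb
  rw [← card_union_of_disjoint]
  · congr 1
    ext v
    simp only [mem_sdiff, mem_union, mem_inter, mem_insert, mem_singleton, not_or]
    constructor
    · rintro ⟨h1, h2⟩
      by_cases hx : v = x
      · exact Or.inr ⟨h1, Or.inl hx⟩
      · by_cases hy : v = y
        · exact Or.inr ⟨h1, Or.inr hy⟩
        · exact Or.inl ⟨h1, h2, hx, hy⟩
    · rintro (⟨h1, h2, -⟩ | ⟨h1, h2⟩)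
      · exact ⟨h1, h2⟩
      · refine ⟨h1, ?_⟩
        rcases h2 with rfl | rfl
        · exact h.avx
        · exact h.avy
  · rw [Finset.disjoint_left]
    intro v hv hv'
    simp only [mem_sdiff, mem_union, mem_inter] at hv hv'
    exact hv.2 (Or.inr hv'.2)

end

end RouteA
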