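import Pool.Agent.Helper12.Res.GBlock

/-!
The number of `G'`-edges of one block: see `Pool/Agent/Helper12/Res/GBlock.lean`
(`SetUp.sum_Gp_zero`, `SetUp.sum_Gp_two`, `SetUp.sum_Gp_le`).
-/
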