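import Mathlib
import Pool.Agent.Helper12.Res.Defs
import Pool.Agent.Helper28.Res.Avg

/-!
# Compressing a 3-graph along a partition of its vertices

`F` is a 3-graph without `s + 1` disjoint edges and `π : V → W` a map to a set with `3 s + 2`
elements.  If compressing loses an edge, then the compressed family misses at least `C(3s-1, 2)`
triples.
-/

namespace Helper28.Res

open Finset Res12

variable {V : Type} [Fintype V] [DecidableEq V] {W : Type} [Fintype W] [DecidableEq W]

/-- the compressed family: the triples of distinct classes which contain an edge -/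
def cmpr (F : Finset (Finset V)) (π : V → W) : Finset (Finset W) :=
  (F.image (fun e => e.image π)).filter (fun t => t.card = 3)

theorem mem_cmpr {F : Finset (Finset V)} {π : V → W} {t : Finset W} :
    t ∈ cmpr F π ↔ (∃ e ∈ F, e.image π = t) ∧ t.card = 3 := by
  simp [cmpr]

/-- the common engine: if every lift of every perfect matching of `Z` can be extended by one edge
then the compressed family misses many triples -/
theorem cmpr_engine {F : Finset (Finset V)} {s : ℕ} (hs : 1 ≤ s) (h3 : ∀ e ∈ F, e.card = 3)
    (hle : ∀ P ⊆ F, IsMatching P → P.card ≤ s) (π : V → W) {Z : Finset W}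
    (hZ : Z.card = 3 * s)
    (hext : ∀ P ⊆ F, IsMatching P → (∀ e ∈ P, e.image π ⊆ Z ∧ (e.image π).card = 3) →
      (∀ e ∈ P, ∀ f ∈ P, e ≠ f → Disjoint (e.image π) (f.image π)) →
      ∃ e ∈ F, Disjoint e (VS P)) :
    (3 * s - 1).choose 2 ≤ ((Z.powersetCard 3).filter (fun t => t ∉ cmpr F π)).card := by
  classical
  have h1 := avg hs hZ (Z.powersetCard 3 \ cmpr F π) (by
    intro Q hQ hm hc
    by_contra hcon
    push Not at hcon
    have hin : ∀ t ∈ Q, ∃ e ∈ F, e.image π = t := by
      intro t ht
      have h2 := hcon t ht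
      rw [mem_sdiff, not_and_not_right] at h2
      exact (mem_cmpr.1 (h2 (mem_powersetCard.2 ⟨(hQ t ht).1, (hQ t ht).2⟩))).1
    choose! g hgF hgi using hin
    have hginj : Set.InjOn g (Q : Set (Finset W)) := by
      intro t ht t' ht' h
      rw [← hgi t ht, ← hgi t' ht', h]
    have hPF : Q.image g ⊆ F := by
      intro e he
      obtain ⟨t, ht, rfl⟩ := mem_image.1 he
      exact hgF t ht
    have himg : ∀ e ∈ Q.image g, ∀ f ∈ Q.image g, e ≠ f →
        Disjoint (e.image π) (f.image π) := by
      intro e he f hf hef
      obtain ⟨t, ht, rfl⟩ := mem_image.1 he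
      obtain ⟨t', ht', rfl⟩ := mem_image.1 hf
      rw [hgi t ht, hgi t' ht']
      exact hm t ht t' ht' (fun h => hef (by rw [h]))
    have hmat : IsMatching (Q.image g) := by
      intro e he f hf hef
      have h2 := himg e he f hf hef
      rw [Finset.disjoint_left] at h2 ⊢
      intro a ha ha'
      exact h2 (mem_image_of_mem π ha) (mem_image_of_mem π ha')
    obtain ⟨e0, he0, hd⟩ := hext (Q.image g) hPF hmat (by
      intro e he
      obtain ⟨t, ht, rfl⟩ := mem_image.1 he
      rw [hgi t ht]
      exact hQ t ht) himg
    have hne : e0.Nonempty := by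
      rw [← Finset.card_pos, h3 e0 he0]; norm_num
    have h4 := hle (insert e0 (Q.image g)) (by
      intro f hf
      rw [mem_insert] at hf
      rcases hf with rfl | hf
      · exact he0
      · exact hPF hf) (hmat.insert hd)
    rw [Finset.card_insert_of_notMem (not_mem_of_disjoint_VS hne hd),
      card_image_of_injOn hginj, hc] at h4
    omega)
  refine h1.trans (card_le_card ?_)
  intro t ht
  rw [mem_filter, mem_sdiff] at ht
  exact mem_filter.2 ⟨ht.1.1, ht.1.2⟩

/-- the number of missing triples -/
theorem card_cmpr_add {F : Finset (Finset V)} (π : V → W) :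
    (cmpr F π).card + ((univ.powersetCard 3).filter (fun t => t ∉ cmpr F π)).card =
      (Fintype.card W).choose 3 := by
  classical
  have h1 : cmpr F π = (univ.powersetCard 3).filter (fun t => t ∈ cmpr F π) := by
    ext t
    rw [mem_filter, mem_powersetCard]
    exact ⟨fun h => ⟨⟨subset_univ _, (mem_cmpr.1 h).2⟩, h⟩, fun h => h.2⟩
  have h2 := Finset.card_filter_add_card_filter_not (s := (univ : Finset W).powersetCard 3)
    (fun t => t ∈ cmpr F π)
  rw [← h1, card_powersetCard, card_univ] at h2
  exact h2

/-- **Lemma P.** If compressing `F` to `3 s + 2` classes loses an edge then the compressed family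
misses at least `C(3s-1, 2)` triples. -/
theorem cmpr_card_le {F : Finset (Finset V)} {s : ℕ} (hs : 1 ≤ s) (h3 : ∀ e ∈ F, e.card = 3)
    (hle : ∀ P ⊆ F, IsMatching P → P.card ≤ s) (π : V → W) (hW : Fintype.card W = 3 * s + 2)
    (hlt : (cmpr F π).card < F.card) :
    (cmpr F π).card + (3 * s - 1).choose 2 ≤ (3 * s + 2).choose 3 := by
  classical
  have key : ∀ Z : Finset W, (3 * s - 1).choose 2 ≤
      ((Z.powersetCard 3).filter (fun t => t ∉ cmpr F π)).card →
      (cmpr F π).card + (3 * s - 1).choose 2 ≤ (3 * s + 2).choose 3 := by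
    intro Z hZ
    rw [← hW, ← card_cmpr_add (F := F) π]
    refine Nat.add_le_add_left (hZ.trans (card_le_card ?_)) _
    exact filter_subset_filter _ (powersetCard_mono (subset_univ _))
  by_cases hdeg : ∃ e ∈ F, (e.image π).card ≠ 3
  · obtain ⟨e0, he0, hc0⟩ := hdeg
    have hc2 : (e0.image π).card ≤ 2 := by
      have := (card_image_le (s := e0) (f := π)).trans (h3 e0 he0).le
      omega
    obtain ⟨T, hT1, -, hT3⟩ := Finset.exists_subsuperset_card_eq (subset_univ (e0.image π)) hc2
      (by rw [card_univ, hW]; omega)
    refine key (univ \ T) (cmpr_engine hs h3 hle π (Z := univ \ T) (by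
      rw [card_sdiff_of_subset (subset_univ _), card_univ, hW, hT3]; omega) ?_)
    intro P hPF hPm hPZ _
    refine ⟨e0, he0, ?_⟩
    rw [Finset.disjoint_left]
    intro a ha haP
    obtain ⟨e, he, hae⟩ := mem_VS.1 haP
    have h4 := (hPZ e he).1 (mem_image_of_mem π hae)
    rw [mem_sdiff] at h4
    exact h4.2 (hT1 (mem_image_of_mem π ha))
  · push Not at hdeg
    -- not injective
    have hEq : cmpr F π = F.image (fun e => e.image π) := by
      unfold cmpr
      rw [Finset.filter_eq_self]
      intro t ht
      obtain ⟨e, he, rfl⟩ := mem_image.1 ht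
      exact hdeg e he
    rw [hEq] at hlt
    obtain ⟨e, he, f, hf, hef, himg⟩ := Finset.exists_ne_map_eq_of_card_lt_of_maps_to hlt
      (fun e he => mem_image_of_mem (fun e : Finset V => e.image π) he)
    -- `π` is injective on edges
    have hinj : ∀ g ∈ F, Set.InjOn π (g : Set V) := by
      intro g hg
      rw [← Finset.card_image_iff, hdeg g hg, h3 g hg]
    obtain ⟨z, hze, hzf⟩ : ∃ z ∈ e, z ∉ f := by
      by_contra hcon
      push Not at hcon
      exact hef (Finset.eq_of_subset_of_card_le hcon (by rw [h3 e he, h3 f hf]))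
    -- Z
    let T := (e.image π).erase (π z)
    have hT : T.card = 2 := by
      rw [card_erase_of_mem (mem_image_of_mem π hze), hdeg e he]
    refine key (univ \ T) (cmpr_engine hs h3 hle π (Z := univ \ T) (by
      rw [card_sdiff_of_subset (subset_univ _), card_univ, hW, hT]; omega) ?_)
    intro P hPF hPm hPZ hPd
    -- the points of `e`, `f` in the cover of `P` are over `π z`
    have hover : ∀ a ∈ VS P, π a ∈ e.image π → π a = π z := by
      intro a ha hai
      obtain ⟨g, hg, hag⟩ := mem_VS.1 ha
      have h4 := (hPZ g hg).1 (mem_image_of_mem π hag)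
      rw [mem_sdiff] at h4
      by_contra hne
      exact h4.2 (mem_erase.2 ⟨hne, hai⟩)
    by_cases hd : Disjoint e (VS P)
    · exact ⟨e, he, hd⟩
    · refine ⟨f, hf, ?_⟩
      rw [Finset.not_disjoint_iff] at hd
      obtain ⟨a, hae, haP⟩ := hd
      have haz : a = z := hinj e he hae hze (hover a haP (mem_image_of_mem π hae))
      subst haz
      rw [Finset.disjoint_left]
      intro b hbf hbP
      have hb1 : π b ∈ e.image π := by
        have h5 : e.image π = f.image π := himg
        rw [h5]
        exact mem_image_of_mem π hbf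
      have hb2 := hover b hbP hb1
      obtain ⟨g, hg, hag⟩ := mem_VS.1 haP
      obtain ⟨g', hg', hbg⟩ := mem_VS.1 hbP
      have hgg : g = g' := by
        by_contra hne
        exact Finset.disjoint_left.1 (hPd g hg g' hg' hne) (mem_image_of_mem π hag)
          (by rw [← hb2]; exact mem_image_of_mem π hbg)
      subst hgg
      have hab : a = b := hinj g (hPF hg) hag hbg hb2.symm
      subst hab
      exact hzf hbf

/-- **The criterion.** If some map to `3 s + 2` classes loses at most `C(3s-1, 2)` edges then
`|F| ≤ C(3s+2, 3)`. -/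
theorem card_le_of_loss {F : Finset (Finset V)} {s : ℕ} (hs : 1 ≤ s) (h3 : ∀ e ∈ F, e.card = 3)
    (hle : ∀ P ⊆ F, IsMatching P → P.card ≤ s) (π : V → W) (hW : Fintype.card W = 3 * s + 2)
    (hloss : F.card ≤ (cmpr F π).card + (3 * s - 1).choose 2) :
    F.card ≤ (3 * s + 2).choose 3 := by
  by_cases hlt : (cmpr F π).card < F.card
  · exact hloss.trans (cmpr_card_le hs h3 hle π hW hlt)
  · push Not at hlt
    have := card_cmpr_add (F := F) π
    rw [hW] at this
    omega

end Helper28.Res
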