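import Pool.Agent.Helper28.Res.TopOf
import Pool.Agent.Helper1.Res.J1
import Pool.Agent.Helper65.Res.J2F

/-!
# The bound `|F| ≤ C(3s+2,3)` for all `s ≥ 3` (problem MP_d365ae_co)

Outline.  `F` is a 3-graph without `s + 1` disjoint edges such that any two points can be avoided
by `s` disjoint edges (`Hyp F s`).  A pair `x y` of largest codegree `3 s - j` and `s` disjoint
edges `P` avoiding both are fixed (`SetUp F s j P x y`); the set `E = N F x y` of all third points
is covered by `P`.  The number of edges of `F` is compared with `C(3s+2,3)` block by block, pair of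
blocks by pair of blocks and perfect matching by perfect matching of the `3 × 3` cells between two
blocks.  The cases `j ≤ 1` and `j ≥ 2` are separate.
-/

namespace RouteA

open Finset Res12

/-- **Theorem.** The bound for all `s ≥ 3`. -/
theorem card_le {V : Type} [Fintype V] [DecidableEq V] {F : Finset (Finset V)} {s : ℕ}
    (h : Hyp F s) (hs : 3 ≤ s) : F.card ≤ (3 * s + 2).choose 3 :=
  card_le_of_cases
    (fun _ _ _ hS => Helper1.Res.card_le_j01 hS (Nat.zero_le _) hs)
    (fun _ _ _ hS => Helper1.Res.card_le_j01 hS le_rfl hs)
    (fun _ _ _ _ hj hS => hS.card_le_j2 hs hj) h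

end RouteA
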