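import Pool.Agent.Helper28.Res.A0

/-!
The top of route A: the bound for all `s ≥ 3` from the three cases `j = 0`, `j = 1`, `j ≥ 2`.
-/

namespace RouteA

open Finset Res12

/-- assembly of the three cases -/
theorem card_le_of_cases {V : Type} [Fintype V] [DecidableEq V] {F : Finset (Finset V)} {s : ℕ}
    (h0 : ∀ (P : Finset (Finset V)) (x y : V), SetUp F s 0 P x y → F.card ≤ (3 * s + 2).choose 3)
    (h1 : ∀ (P : Finset (Finset V)) (x y : V), SetUp F s 1 P x y → F.card ≤ (3 * s + 2).choose 3)
    (h2 : ∀ (j : ℕ) (P : Finset (Finset V)) (x y : V), 2 ≤ j → SetUp F s j P x y →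
      F.card ≤ (3 * s + 2).choose 3)
    (h : Hyp F s) : F.card ≤ (3 * s + 2).choose 3 := by
  rcases F.eq_empty_or_nonempty with hF | hF
  · rw [hF, card_empty]
    exact Nat.zero_le _
  · obtain ⟨j, P, x, y, hS⟩ := exists_setup h hF
    rcases j with - | - | j
    · exact h0 P x y hS
    · exact h1 P x y hS
    · exact h2 (j + 2) P x y (by omega) hS

end RouteA
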